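import Pool.Agent.WMN.InsFin

set_option autoImplicit false

namespace Pool.Agent.Results.MP_6f2ea1_al.FinitelyGeneratedExample

open Pool.Agent.WMN Pool.Agent.WMN.Ins

/-- A torsion-free soluble group with the weak minimal condition on normal subgroups that is not
minimax. -/
theorem result : ∃ (G : Type) (_ : Group G) (D : Subgroup G) (_ : D.Normal),
    (∃ a b c d : G, Subgroup.closure ({a, b, c, d} : Set G) = ⊤) ∧
    derivedSeries G 4 = ⊥ ∧ TorsionFree G ∧ WeakMinNormal G ∧ ¬ IsMinimax G ∧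
    (∀ x ∈ D, ∀ y ∈ D, x * y = y * x) ∧
    (∀ n : ℕ, 0 < n → ∀ x ∈ D, ∃ y ∈ D, y ^ n = x) ∧
    D ≠ ⊥ ∧ (∀ N : Subgroup G, N.Normal → N ≤ D → N = ⊥ ∨ N = D) ∧
    derivedSeries (G ⧸ D) 3 = ⊥ ∧ TorsionFree (G ⧸ D) ∧ WeakMin (G ⧸ D) ∧ IsMinimax (G ⧸ D) := by
  obtain ⟨I, hI, hr⟩ := exists_leftIdeal
  obtain ⟨D, _, _, hD, htf, hdiv⟩ := exists_simple I hI hr
  have hnt : Nontrivial D := IsSimpleModule.nontrivial (MonoidAlgebra ℤ Gam) D
  refine ⟨GG D, inferInstance, (rH D).ker, inferInstance, four_gen hD, derived_four, tfree htf,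
    wmn hD, ?_, fun x hx y hy => ker_comm x y hx hy, fun n hn x hx => ker_div hdiv n hn x hx,
    ker_ne_bot hD, fun N hN hle => ker_min hD N hN hle,
    derived_of_injective quotHom quotHom_inj 3 gam_derived,
    TorsionFree.of_injective quotHom quotHom_inj Gam.torsionFree,
    WeakMin.of_wm (WM.of_injective quotHom quotHom_inj Gam.wm),
    IsMinimax.of_injective quotHom quotHom_inj gam_isMinimax⟩
  exact not_isMinimax (SemidirectProduct.inl (φ := semiAct Gam D)) SemidirectProduct.inl_injective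
    htf hdiv

end Pool.Agent.Results.MP_6f2ea1_al.FinitelyGeneratedExample
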